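import Pool.Agent.N355.MS.Decomp

set_option autoImplicit false

/-!
# MP_6a4d09_co: a finest matroid subdivision of a hypersimplex with a decomposable cell

The matroid polytope of the projective plane of order three is a cell of a matroid subdivision of
`Δ(3,13)`, and it is indecomposable, so it is a cell of some finest matroid subdivision `C`. The
facet of this cell given by a line with four points is `Δ(2,4) × Δ(1,9)`. The cell of `C` on the
other side of this facet is the polytope of a matroid obtained from a rank three matroid on five
points, with at most one three-point line, by replacing one point with nine parallel ones; every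
such polytope has a nontrivial matroid subdivision.
-/

namespace Pool.Agent.Results.MP_6a4d09_co.DecomposableCell

open Set
open Pool.Agent.R567.MSub (polytope IsFace IsCell IsMatroidSubdivision)
open Pool.Agent.N355.MS (IsFinest)

/-- There are a finest matroid subdivision `C` of the hypersimplex `Δ(3,13)`, a maximal cell
`P_N` of `C`, and a matroid subdivision `D` of `P_N` which is not the trivial one. -/
theorem result : ∃ (U N : Matroid (Fin 13)) (C D : Set (Set (Fin 13 → ℝ))),
    U.E = univ ∧ (∀ B, U.IsBase B ↔ B.ncard = 3) ∧ IsFinest U C ∧
      N.E = univ ∧ IsCell C (polytope N) ∧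
        IsMatroidSubdivision N D ∧ D ≠ {F | IsFace (polytope N) F} := by
  obtain ⟨C, hC, href⟩ := Pool.Agent.N355.MS.exists_finest Pool.Agent.N355.MS.sub0
  obtain ⟨N, hNE, hN, h1, h2, h3⟩ := Pool.Agent.N355.MS.exists_N hC.1 href
  have hdec := Pool.Agent.N355.MS.decomposable hNE h1 h2 h3
  unfold Pool.Agent.N355.MS.Indecomposable at hdec
  push Not at hdec
  obtain ⟨D, hD, hDne⟩ := hdec
  refine ⟨Pool.Agent.N355.MS.U, N, C, D, rfl, ?_, hC, hNE, hN, hD, hDne⟩
  intro B
  obtain ⟨A, rfl⟩ := (Set.toFinite B).exists_finset_coe
  rw [Set.ncard_coe_finset]
  exact Pool.Agent.N355.MS.ofBF_isBase Pool.Agent.N355.MS.bf_unif A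

end Pool.Agent.Results.MP_6a4d09_co.DecomposableCell
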